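import Pool.Agent.H79.MC.Targets2

/-!
Polynomial space algorithms for maximum cut: averages of products of signs (target AV0).
-/

set_option autoImplicit false

namespace Pool.Agent.H18.MC

open Pool.Agent.H79.MC

/-- flip one coordinate -/
def flipC {n : ℕ} (u : Fin n) (y : Fin n → Bool) : Fin n → Bool := Function.update y u (!(y u))

theorem flipC_invol {n : ℕ} (u : Fin n) : Function.Involutive (flipC u) := by
  intro y
  unfold flipC
  simp

theorem flipC_same {n : ℕ} (u : Fin n) (y : Fin n → Bool) : flipC u y u = !(y u) := by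
  unfold flipC
  simp

theorem flipC_ne {n : ℕ} {u v : Fin n} (h : v ≠ u) (y : Fin n → Bool) : flipC u y v = y v := by
  unfold flipC
  simp [h]

theorem sb_not (b : Bool) : sb (!b) = -sb b := by
  cases b <;> simp [sb]

theorem sb_sq (b : Bool) : sb b ^ 2 = 1 := by
  cases b <;> simp [sb]

theorem av_invol {n : ℕ} {e : (Fin n → Bool) → (Fin n → Bool)} (he : Function.Involutive e)
    {f : (Fin n → Bool) → ℝ} (h : ∀ y, f (e y) = -f y) : av f = 0 := by
  have h1 : ∑ y, f (e y) = ∑ y, f y := by
    have := Equiv.sum_comp (Function.Involutive.toPerm e he) f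
    simpa using this
  have h2 : ∑ y, f (e y) = -∑ y, f y := by
    rw [← Finset.sum_neg_distrib]
    exact Finset.sum_congr rfl fun y _ => h y
  have h3 : ∑ y, f y = 0 := by linarith
  unfold av
  rw [h3, zero_div]

theorem av_add {n : ℕ} (f g : (Fin n → Bool) → ℝ) : av (fun y => f y + g y) = av f + av g := by
  unfold av
  rw [Finset.sum_add_distrib, add_div]

theorem av_mul {n : ℕ} (c : ℝ) (f : (Fin n → Bool) → ℝ) : av (fun y => c * f y) = c * av f := by
  unfold av
  rw [← Finset.mul_sum, mul_div_assoc]

theorem av_const {n : ℕ} (c : ℝ) : av (fun _ : Fin n → Bool => c) = c := by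
  unfold av
  rw [Finset.sum_const, Finset.card_univ, Fintype.card_fun, Fintype.card_bool, Fintype.card_fin,
    nsmul_eq_mul]
  have : (2 : ℝ) ^ n ≠ 0 := by positivity
  push_cast
  field_simp

theorem av_mono {n : ℕ} {f g : (Fin n → Bool) → ℝ} (h : ∀ y, f y ≤ g y) : av f ≤ av g := by
  unfold av
  exact div_le_div_of_nonneg_right (Finset.sum_le_sum fun y _ => h y) (by positivity)

theorem Ys_insert {n : ℕ} {u : Fin n} {S : Finset (Fin n)} (h : u ∉ S) (y : Fin n → Bool) :
    Ys (insert u S) y = sb (y u) + Ys S y := by
  unfold Ys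
  rw [Finset.sum_insert h]

theorem Ys_flipC {n : ℕ} {u : Fin n} {S : Finset (Fin n)} (h : u ∉ S) (y : Fin n → Bool) :
    Ys S (flipC u y) = Ys S y := by
  unfold Ys
  refine Finset.sum_congr rfl fun v hv => ?_
  rw [flipC_ne]
  rintro rfl
  exact h hv

theorem pf_av0 : T_AV0 := by
  intro n
  refine ⟨?_, ?_, ?_⟩
  · intro u v huv
    refine av_invol (flipC_invol u) fun y => ?_
    rw [flipC_same, flipC_ne huv.symm, sb_not]
    ring
  · intro f hf
    refine av_invol (e := fun y v => !(y v)) ?_ hf
    intro y
    funext v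
    simp
  · intro S
    induction S using Finset.induction_on with
    | empty =>
      have h1 : (fun y : Fin n → Bool => Ys ∅ y ^ 2) = fun _ => 0 := by
        funext y; simp [Ys]
      have h2 : (fun y : Fin n → Bool => Ys ∅ y ^ 4) = fun _ => 0 := by
        funext y; simp [Ys]
      rw [h1, h2, av_const]
      simp
    | insert u S hu ih =>
      obtain ⟨ih2, ih4⟩ := ih
      have hodd1 : av (fun y => sb (y u) * Ys S y) = 0 := by
        refine av_invol (flipC_invol u) fun y => ?_
        rw [flipC_same, Ys_flipC hu, sb_not]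
        ring
      have hodd3 : av (fun y => sb (y u) * Ys S y ^ 3) = 0 := by
        refine av_invol (flipC_invol u) fun y => ?_
        rw [flipC_same, Ys_flipC hu, sb_not]
        ring
      have e2 : (fun y => Ys (insert u S) y ^ 2) =
          fun y => (Ys S y ^ 2 + 2 * (sb (y u) * Ys S y)) + 1 := by
        funext y
        rw [Ys_insert hu]
        have := sb_sq (y u)
        linear_combination this
      have e4 : (fun y => Ys (insert u S) y ^ 4) =
          fun y => (((Ys S y ^ 4 + 4 * (sb (y u) * Ys S y ^ 3)) + 6 * Ys S y ^ 2) +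
            4 * (sb (y u) * Ys S y)) + 1 := by
        funext y
        rw [Ys_insert hu]
        have h1 := sb_sq (y u)
        have h3 : sb (y u) ^ 3 = sb (y u) := by
          rw [pow_succ, h1, one_mul]
        have h4 : sb (y u) ^ 4 = 1 := by
          rw [pow_succ, h3, ← sq, h1]
        have : (sb (y u) + Ys S y) ^ 4 = sb (y u) ^ 4 + 4 * sb (y u) ^ 3 * Ys S y +
          6 * sb (y u) ^ 2 * Ys S y ^ 2 + 4 * sb (y u) * Ys S y ^ 3 + Ys S y ^ 4 := by ring
        rw [this, h1, h3, h4]
        ring
      have hc : ((insert u S).card : ℝ) = S.card + 1 := by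
        rw [Finset.card_insert_of_notMem hu]
        push_cast
        ring
      constructor
      · rw [e2, av_add, av_add, av_mul, hodd1, av_const, ih2, hc]
        ring
      · rw [e4, av_add, av_add, av_add, av_add, av_mul, av_mul, av_mul, hodd1, hodd3, av_const, ih2,
          hc]
        nlinarith

end Pool.Agent.H18.MC
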