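import Pool.Agent.H18.MC.AV0

/-!
Polynomial space algorithms for maximum cut: the gain of the truncated sum (target AV1).
-/

set_option autoImplicit false

namespace Pool.Agent.H18.MC

open Pool.Agent.H79.MC

theorem mul_clp (x : ℝ) : x ^ 2 - 4 / 27 * x ^ 4 ≤ x * clp x := by
  unfold clp
  rcases le_total x (-1) with h | h
  · have e : max (-1) (min 1 x) = -1 := by
      rw [min_eq_right (by linarith), max_eq_left h]
    rw [e]
    have key : 0 ≤ (x + 3 / 2) ^ 2 * (3 - x) := mul_nonneg (sq_nonneg _) (by linarith)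
    have hx : 0 ≤ -x := by linarith
    have := mul_nonneg hx key
    nlinarith
  · rcases le_total x 1 with h' | h'
    · have e : max (-1) (min 1 x) = x := by
        rw [min_eq_right h', max_eq_right h]
      rw [e]
      have : 0 ≤ x ^ 4 := by positivity
      nlinarith
    · have e : max (-1) (min 1 x) = 1 := by
        rw [min_eq_left h', max_eq_right (by norm_num)]
      rw [e]
      have key : 0 ≤ (x - 3 / 2) ^ 2 * (3 + x) := mul_nonneg (sq_nonneg _) (by linarith)
      have hx : 0 ≤ x := by linarith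
      have := mul_nonneg hx key
      nlinarith

theorem pf_av1 (hAV0 : T_AV0) : T_AV1 := by
  intro n S s hs hS
  obtain ⟨h2, h4⟩ := (hAV0 n).2.2 S
  have hD : (0 : ℝ) ≤ S.card := by positivity
  have hpt : ∀ y : Fin n → Bool, 1 / s * Ys S y ^ 2 + -(4 / 27 / s ^ 3) * Ys S y ^ 4 ≤
      Ys S y * clp (Ys S y / s) := by
    intro y
    have h := mul_clp (Ys S y / s)
    have h' := mul_le_mul_of_nonneg_left h hs.le
    have e1 : s * ((Ys S y / s) ^ 2 - 4 / 27 * (Ys S y / s) ^ 4) =
        1 / s * Ys S y ^ 2 + -(4 / 27 / s ^ 3) * Ys S y ^ 4 := by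
      field_simp
      ring
    have e2 : s * (Ys S y / s * clp (Ys S y / s)) = Ys S y * clp (Ys S y / s) := by
      field_simp
    rw [e1, e2] at h'
    exact h'
  have hav := av_mono hpt
  rw [av_add, av_mul, av_mul, h2] at hav
  refine le_trans ?_ hav
  have h5 : -(4 / 27 / s ^ 3) * (3 * (S.card : ℝ) ^ 2) ≤
      -(4 / 27 / s ^ 3) * av (fun y => Ys S y ^ 4) := by
    refine mul_le_mul_of_nonpos_left h4 ?_
    have : 0 ≤ 4 / 27 / s ^ 3 := by positivity
    linarith
  have h6 : 9 / 10 * ((S.card : ℝ) / s) ≤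
      1 / s * (S.card : ℝ) + -(4 / 27 / s ^ 3) * (3 * (S.card : ℝ) ^ 2) := by
    have hs3 : 0 < s ^ 3 := by positivity
    have e3 : 1 / s * (S.card : ℝ) + -(4 / 27 / s ^ 3) * (3 * (S.card : ℝ) ^ 2) =
        (s ^ 2 * S.card - 4 / 9 * (S.card : ℝ) ^ 2) / s ^ 3 := by
      field_simp
      ring
    have e4 : 9 / 10 * ((S.card : ℝ) / s) = (9 / 10 * (s ^ 2 * S.card)) / s ^ 3 := by
      field_simp
    rw [e3, e4]
    refine div_le_div_of_nonneg_right ?_ hs3.le
    nlinarith [mul_le_mul_of_nonneg_right hS hD]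
  linarith

end Pool.Agent.H18.MC
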